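import Pool.Agent.Lib.MP_0087d5_lcQE.Ball
import Pool.Agent.Lib.MP_0087d5_lcQS.P0

/-!
# Maximum matchings in NC: all graphs with few random bits, almost all graphs, and all their local perturbations

`AUG.RelNC2 r` (file `MP_0087d5_lc/AUG/NC2.lean`): an `r`-ary relation on the vertices computed by a first-order uniform family of NAND circuits of polynomial size, fan-in two and depth
`a * (log₂ n + 1) ^ k`, reading the adjacency matrices of two graphs `G`, `A`, with `n ^ r` output gates.

Outline of the proof (files in `Pool/Agent/Lib/MP_0087d5_lcQE`, `MP_0087d5_lcQN`, and in the libraries `MP_0087d5_lcQI`, `MP_0087d5_lcQS`, `MP_0087d5_lcLI`, `MP_0087d5_lcMT`, `MP_0087d5_lcPR` of this problem). `N = 2 n` is the number of vertices of the tested graphs `T`; all the numbers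
`K, m, q, g, y, t, p, g', y', t', d` are less than a fixed power of `N`, and all their values are tried in parallel.

**1. The first weights** (`QE/V6` - `V8`). `w (uv) = r_u v + r_v u`, where `r_u` is the value at `u` of a polynomial of degree less than `d` over `F_p` with the coefficients `ζ`. So the numbers `r_u` of any `d` vertices are independent. Let `H` be the union of the perfect matchings of least weight `w` of `T`.
By Edmonds' description of the perfect matching polytope and uncrossing `w (uv) = α_u + α_v - γ` on `H`, where `γ` depends only on the least member of a laminar family which contains `u` and `v` (`LI/Pote`, `LI/Tree`). If `H` has more than `D r` pairs inside a set `W` of `r ≤ d` vertices, `D = 2 ^ 32`, then for a subset of `W` (all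
degrees larger than `D`; `LI/Hit`, `LI/Sel`) the numbers `r_u` satisfy one of few systems of equations with few solutions (`LI/Cnt`, `LI/CntA`); so this happens, for any `T`, only for a fraction `N ^ (-14)` of the points `ζ` (`V8`). `H` is determined by its pairs inside `W` and by `T` outside of `W`. So for all other `ζ` the graphs
`T` which agree outside of `W` have at most `N ^ (6 D r)` unions `H` (`V7`).

**2. The other rounds** (`QN/CDefs`, `K1`, `K2`; `QI/IsoW`, `QS/K1`). They start with the graph `H`: `w_0 = 0`, `w_(i + 1) (uv) = K w_i (uv) + (r_(i + 1) ^ e(uv) mod m)`, `e` numbers the pairs, `m` is prime. Isolation theorem: if `r_i` is not one of at most `n ^ 122` bad numbers (which depend on `H` and the `r_j`, `j < i`), then after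
`clog₂ N` rounds only one perfect matching has least weight. Its proof is outlined in the hand-in `SizeNtoLogN` (pieces: alternating vectors of walks with interfaces; a piece of size `2 M` is a sum of five pieces of size `M`; tangency to the laminar family). Compression: if `H_i` is the union of the perfect matchings of least
weight `u`, `μ(v)` the least weight of a matching of `H_i` which misses `v` and exactly one more vertex, then the ranks of the numbers `u(xy) + μ(x) + μ(y)` on `H_i` are weights at most `N` with the same perfect matchings of least weight. So in each round the weights `K ρ_i (uv) + (r_i ^ e(uv) mod m)` are less than a fixed power of `N`.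

**3. One round in NC** (`QN/SDefs`, `S1` - `S4`, `E1`; first round: `QE/V1`). The numbers `μ(v)` and the edges of `H_(i+1)` are read off from the least weights of the perfect matchings of `H_i` and `H_i - v - w`, and these from the least exponents of the determinants modulo a prime `q` of the skew-symmetric matrices with the entries
`± Y(uv) t ^ u(uv)`, `Y(uv) = ∏ x_j ^ (r'_j ^ e(uv) mod m)`. A computed least weight is never too small; it is right if the coefficient is not zero, which depends only on the perfect matchings of least weight, so for the first round on `T` only on `H` (for the pairs `v w` of `H`; all others are rejected in any case).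

**4. The numbers** (`QN/S0`, `C1` - `C4`, `F2`; `QE/V0`, `V2` - `V4`). They are the coordinates of points of walks in `F_p ^ d` (the point `ζ`) and in `F_q ^ (12 log₂ N)` (the numbers `r_i, r'_j, x_j`, for the first round and for the other rounds). The walks are read off from `A`: `f_A z` is the sum of `z ^ e` over the edges of `A`; the symbols
`s_j = f_A (g ^ j y)`, `j < 5 d`, are the symbols of a walk in `F_p ^ d`. For less than `p ^ (5 d)` graphs `A` all the points of all the walks are in a given set of density `N ^ (-14)` (`QN/C3`: the folded Reed-Solomon condenser and the eigenvalues of the walk).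

**5. Union bound** (`QE/V9`). For all but `p ^ (5 d)` graphs `A` some walk has a point `ζ` which is not bad, `d = r + 1`. For each of the `p ^ d` points `ζ`, each of the tested graphs for `G` and each of the `N ^ (6 D r)` graphs `H`, for all but `2 ^ (c (log₂ n) ^ 2)` graphs `A` the first round gives `H`, and the other rounds a perfect matching of `H`.
Together at most `n ^ (C (r + log₂ n))` exceptions for a given set `W` of `r` vertices. A second union bound, over the sets `W` and the changes on the sets `D` of pairs, `card W + card D ≤ r` (`Ball`).

**6. The output** (`QE/W3` - `W5`). `T1 d`, `T2 (d, v)` (file `PR/SDefs`): tested graphs on `N = 2 n` vertices which have a perfect matching if and only if `G` has a matching with at most `d` uncovered vertices (and not covering `v`). `M(G, A)` is the part in `G` of the perfect matching of `T1 d` found for the least `d`;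
`U(G, A)` is the set of the neighbours of the vertices `v` for which a perfect matching of `T2 (d, v)` is found; theorem of Gallai and Edmonds (`PR/GE`). Circuits: `QN/D1` - `D4`, `QE/W1` - `W3`.
-/

set_option autoImplicit false

namespace Pool.Agent.Results.MP_0087d5_lc.MaximumMatchings

open Pool.Agent.AUG

/-- **There are functions `M` and `U` of pairs `(G, A)` of graphs, both computed in NC, and a constant `C`, such that `M n G A` is always a matching of `G`, and for every `n`, every `r` and every graph `G` with the vertices `0, …, n - 1`, for all but at most `n ^ (C (r + log₂ n))` graphs `A`: for all graphs `G'` which arise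
from `G` by changes inside a set `W` of vertices and on a set `D` of pairs, `card W + card D ≤ r`, the number of odd components of `G' - U n G' A` is the number of elements of `U n G' A` plus the number of vertices which are not covered by `M n G' A`** (so `M n G' A` is a maximum matching of `G'`, and the equation, which can be
checked in NC, certifies it). For `r = 0`: every graph `G`, and all but `n ^ (C log₂ n)` graphs `A`. For `r = n`: all but `n ^ (2 C n)` graphs `A` are right for all graphs `G'` at once, for example for `A = G'` (one input graph and no random bits). For every `G` and every set `W` of `r ≥ C' log₂ n` vertices the output for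
`A = G'` is right for almost all of the `2 ^ (r (r - 1) / 2)` graphs `G'` which agree with `G` outside of `W`. -/
theorem result : ∃ (M : ∀ n : ℕ, SimpleGraph (Fin n) → SimpleGraph (Fin n) → SimpleGraph (Fin n))
    (U : ∀ n : ℕ, SimpleGraph (Fin n) → SimpleGraph (Fin n) → Set (Fin n)) (C : ℕ),
    RelNC2 2 (fun n G A x => (M n G A).Adj (x 0) (x 1)) ∧ RelNC2 1 (fun n G A x => x 0 ∈ U n G A) ∧
    (∀ (n : ℕ) (G A : SimpleGraph (Fin n)), M n G A ≤ G ∧ ∀ u v w, (M n G A).Adj u v → (M n G A).Adj u w → v = w) ∧
    ∀ (n : ℕ) (G : SimpleGraph (Fin n)) (r : ℕ),
      Nat.card {A : SimpleGraph (Fin n) // ∃ (W : Finset (Fin n)) (D : Finset (Sym2 (Fin n))) (G' : SimpleGraph (Fin n)), W.card + D.card ≤ r ∧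
        (∀ u v, ¬ (u ∈ W ∧ v ∈ W) → s(u, v) ∉ D → (G'.Adj u v ↔ G.Adj u v)) ∧
        ((⊤ : G'.Subgraph).deleteVerts (U n G' A)).coe.oddComponents.ncard ≠ (U n G' A).ncard + {v | ∀ w, ¬ (M n G' A).Adj v w}.ncard} ≤
      n ^ (C * (r + Nat.log 2 n)) := by
  obtain ⟨C0, hW⟩ := QSR.isoMostW
  exact QLE.ball hW

end Pool.Agent.Results.MP_0087d5_lc.MaximumMatchings
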