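import Pool.Agent.Lib.MP_0087d5_lc.NEGD.FinD

/-!
# Negations for perfect matching, for every set of entries of the matrix

A nonuniform Boolean circuit (no bound on its depth) reads the `n × n` biadjacency matrix of a bipartite graph. Its gates are plain (at most two inputs, monotone function: AND, OR) or compute arbitrary functions of any number of inputs (a NOT gate: one input). Let `D` be a set of entries of the matrix, at most √|D| of them in each row and in each column. For each `D` and `s` there are an assignment `ρ` of the entries outside `D` and pairs `N i ≤ P i` of matrices which agree with `ρ` outside `D`, `P i` with and `N i` without a perfect matching, such that no circuit with at most `s` live gates (gates which are not constant on the matrices which agree with `ρ` outside `D`) of weight `w` gives different outputs at more than the fraction K w (log2 (s + n) + 1)^34 / |D| of the pairs. All other gates are free: in particular all gates whose values depend only on the entries outside `D`.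

In particular circuits of polynomial size (so all NC circuits) which decide perfect matching need at least log2 |D| - O(log log n) NOT gates whose inputs are not constant under `ρ` (so depend on entries in `D`), for every such `D`; the same for circuits which are right on a constant fraction of the pairs, and for randomized circuits. For every such `D` this is optimal up to the second term: ⌈log2 (|D| + 1)⌉ NOT gates with inputs depending on `D` are enough for polynomial size (Markov 1958, Fischer 1974: these compute the negations of the entries in `D`; the negations of all other entries are free). Examples: all entries (2 log2 n - O(log log n) NOT gates in all), pairwise disjoint entries, disjoint square blocks, every regular or random set of entries, the entries with a bounded ratio of the degrees. For other sets the theorem can be applied to their subsets.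

Three weights are allowed (`WeightOn`), `X` is the set of the live gates: m 2^t + 1 for t non-plain gates in `X` with at most m inputs; the product of (number of input wires of the non-plain gates of rank j) + 1 over all ranks j; the number of input wires of the non-plain gates plus one if `X` is a formula.

Outline of the proof (files in `Pool/Agent/Lib/MP_0087d5_lc`: `NEG`, `NEGS`, `NEGQ`, `NEGV`, `NEGT`, `NEGD`).
1. `NEGS`, `NEGQ`: the approximation method, average case form: a monotone function with a circuit of at most 2^l gates on `K_{q,q}`, q = l^8, is one on a random perfect matching with probability at most 1/l times the probability that it is one on the cut of a random odd 2-colouring (plus a tiny error), or it is one on almost all cuts. Hence the replacement of a random perfect matching by a cut of deficiency one is an increase for all small monotone functions, although the matching number decreases.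
2. `NEGQ`, `NEGT/Steps`, `NEGT/Wnd`: the staircase: r²/polylog windows `K_{q,q}` in an `r × r` matrix, every one of which is critical at some time of a chain of random graphs which increases in the mean.
3. `NEGT/Total`, `PChain`, `Fml`, `QFml`: the inputs of the non-plain gates and the output change only O(w) times in the mean along the chain, for the three weights; `NEGT/Local`: a window at which they rarely change cannot be decided for most of the negative inputs.
4. `NEGD/Rows`, `Colr`, `Halves`: in half of the rows and half of the columns, `D` contains an `r × r` matrix of clouds: r disjoint sets of rows with large neighbourhoods (greedy), and a colouring of the columns with r colours such that every set of rows sees every colour; r² ≥ |D| / polylog. `NEGD/Cloud`: a cloud of k rows, together with k - 1 columns joined to exactly these rows by constants, acts as one row (the union of the k rows), and the same for columns: so the staircase of size r lives on r² entries of `D`, and all other entries are constants.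
5. `NEGD/Wt`, `NEGV/Subst`: the constant gates are replaced by constants, which keeps the weight of the live part; `NEGD/FinD`: the numbers.
-/

namespace Pool.Agent.Results.MP_0087d5_lc.NegationsEverySet

open Pool.Agent.NEG Pool.Agent.NEGD

/-- **Circuits for perfect matching need about `log2 |D|` negations of values which depend on `D`, for every set `D` of entries with at most √|D| entries in each row and in each column.** There is a constant `K` such that for all `n`, `s` and all such nonempty sets `D` there are M ≥ 1, pairs `N i ≤ P i` (i < M) of 0/1 matrices of size `n` and a matrix `ρ` such that all these matrices agree with `ρ` outside of `D`, `P i` has a perfect matching and `N i` has none, and for every acyclic circuit `C` with at most `s` live gates (gates which are not constant on the inputs which agree with `ρ` outside of `D`) and every weight `w` of its live gates: |D| times the number of the `i` with different outputs at `P i` and `N i` is at most K w (log2 (s + n) + 1)^34 M. -/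
theorem result : ∃ K : ℕ, ∀ (n s : ℕ) (D : Finset (Fin n × Fin n)), D.Nonempty →
    (∀ a, (D.filter (fun e => e.1 = a)).card ^ 2 ≤ D.card ∧
      (D.filter (fun e => e.2 = a)).card ^ 2 ≤ D.card) →
    ∃ (M : ℕ) (P N : Fin M → Fin n × Fin n → Bool) (ρ : Fin n × Fin n → Bool), 1 ≤ M ∧
      (∀ i, (∀ e, N i e = true → P i e = true) ∧
        (∀ e, e ∉ D → P i e = ρ e ∧ N i e = ρ e) ∧ PM n (P i) ∧ ¬ PM n (N i)) ∧
      ∀ (G : Type) [Finite G] (C : Circuit (Fin n × Fin n) G), (∃ d, C.DepthLE d) →
        (Live C ↑D ρ).ncard ≤ s → ∀ w : ℕ, WeightOn C (Live C ↑D ρ) w →
        D.card * {i | Apart C (P i) (N i)}.ncard ≤
          K * w * (Nat.log 2 (s + n) + 1) ^ 34 * M :=
  main_sqrt

end Pool.Agent.Results.MP_0087d5_lc.NegationsEverySet
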