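import Pool.Agent.Lib.MP_0087d5_lcQC.Plug
import Pool.Agent.Lib.MP_0087d5_lcQC.SMain

/-!
# Maximum matchings of all graphs on `k` vertices by uniform circuits of size `k ^ O(log k)` and polylogarithmic depth

`PRS.RelNC1 r` (file `MP_0087d5_lcPR/Circ1.lean`): an `r`-ary relation on the vertices `{0, …, n - 1}` of a graph computed by a first-order uniform family of NAND circuits of polynomial size, fan-in two and depth `c * (log₂ n + 1) ^ j`, reading the adjacency matrix, with `n ^ r` output
gates. Padding: the `k` real vertices are the first ones, `n ≥ (2 k) ^ log₂ (2 k)`; with equality the size of the circuits is `k ^ O(log k)` and their depth `(log k) ^ O(1)`.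

Outline of the proof (files in `Pool/Agent/Lib/MP_0087d5_lcQI`, `MP_0087d5_lcQC`, and in the libraries `MP_0087d5_lc`, `MP_0087d5_lcMT`, `MP_0087d5_lcLI`, `MP_0087d5_lcZE`, `MP_0087d5_lcPR` of this problem).
1. **Isolation** (`QI`, theorem `QIS.iso_weights`). Let `m` be a prime number, `K` large, and `w_0 = 0`, `w_(i + 1) (uv) = K w_i (uv) + (r_i ^ e(uv) mod m)`, where `e(uv)` is the label of the pair, a number less than `k ^ 2`. For every graph on at most `k` vertices with a perfect
   matching there are numbers `r_0, …, r_(s - 1) < m`, `s = ⌈log₂ k⌉`, such that only one perfect matching has least `w_s` weight, and `m ≤ k ^ O(1)`. So `log₂ k` weight functions of `O(log k)` bits are enough (Svensson and Tarnawski need `(log k) ^ 2`).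
   Let `F` be the set of the perfect matchings of least weight, `H` the union of its members, `L` a laminar family of odd sets `T` with exactly one edge of each member of `F` leaving `T`, such that every vector supported on `H`, with row sums `0` and sum `0` over the edges
   leaving `T`, for all `T` in `L`, is orthogonal to the weights (`MT/W2`, `QI/KeyExt`, with Edmonds' description of the perfect matching polytope and uncrossing). A *piece* (`QI/Pc`) is a walk `q` in `H` with an interval of positions `(a, b]` and a hole `(c, d]` inside (possibly
   empty), such that all the runs of `q` inside sets of `L` which are entered and left in `[a, b]` have odd length, and a set of `L` which contains one of the two cut edges of the interval (of the hole) contains the interval (the hole). The edge `i` joins `q_i` and `q_(i + 1)`,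
   the cut edges are `a, c, d, b`. The vector of the piece is the alternating sum of the edges `a, …, c - 1` and `d, …, b - 1`, its size `(c - a) + (b - d)`; its interface consists of the four cut edges and the parities of `a, c, d, b`: there are at most `16 k ^ 8` interfaces.
   (a) `QI/Tan`: the difference `z` of the vectors of two pieces with the same interface has row sums `0` and sum `0` over the edges leaving `T`, for all `T` in `L`.
   (b) `QI/Spl`: a piece of size at most `2 t` is the sum of five pieces of size at most `t`. Let `J` be a least interval around the hole which gives a piece of size more than `t`. The five pieces are the ring between the outer interval and `J`, the half of `J` which contains the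
   hole, if `J` is cut at an edge on its top level (such an edge exists since `L` is laminar), and three pieces which are obtained in the same way from the other half (with a least interval with more than `t` positions inside it, and no hole). The holes are the reason why one
   weight function for each scale is enough.
   (c) `QI/Stg`: if the interface determines the vector for the pieces of size at most `t`, there are at most `(16 k ^ 8) ^ 5` vectors of pieces of size at most `2 t`; for all but `k ^ O(1)` numbers `r_i` the new weight is not orthogonal to any nonzero difference of two of them
   (roots of polynomials modulo `m`); then, by (a), for the new `F` and `L` the interface determines the vector for the pieces of size at most `2 t`.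
   (d) `QI/EndA`, `EndB`: if this is so for all sizes, `F` has only one member: a cycle `k_1, …, k_N` of the symmetric difference of two of them, cut at an edge on its top level, gives the pieces `k_N k_1 … k_N k_1` and `k_N k_1 k_2 k_1 k_N k_1` with the same interface and different vectors.
2. **The test** (`QC/Defs`, `SD`). The numbers `r_i` are the digits of one number `R < m ^ s ≤ n ^ O(1)`, and the weights are less than `K ^ s ≤ n ^ O(1)`. All the values of `K, m, s, R`, of a prime number `p` and of `x` less than a fixed power of `n` are tried in parallel. For the
   tested graph `T` with the vertices `< t` the matrix has the entries `± x ^ w(uv)` modulo `p` on the edges of `T`, bordered by the identity matrix (Tutte).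
3. **Search** (`QC/SA` – `SL`). `T1`: the graph `G` on the first `k` vertices, and `d ≤ k` more vertices which are joined to all of them; it has a perfect matching if and only if `G` has a matching with `d` uncovered vertices among the first `k` (`SJ`). `T2`: moreover
   `v` loses its neighbours in `G`. If the weights isolate the perfect matching `M*` of the tested graph `T` and `c` is its weight (summed over the vertices), then the edge `uv` is in `M*` if and only if the coefficient of `x ^ c` of the determinant of `T - uv` is zero; the
   coefficient is minus the sum over `x ≠ 0` in `F_p` of `x ^ (p - 1 - c)` times the determinant (`SB`, `SC`, `SE`). `M` is read off from the least `d` and the least parameters which give a perfect matching of `T1`. `D` is the set of the vertices `v` for which `T2` has a perfect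
   matching, `U` the set of the neighbours of `D` outside of `D`; the equation is the theorem of Gallai and Edmonds (`PR/GE`, `SK`).
4. **Circuits** (`QC/A1` – `A6`, `SF` – `SI`). Exact products, powers and digits of numbers less than a power of `n`, the number `k`, and the weights modulo a number are definable in the language of the library `MP_0087d5_lc`, which is compiled into circuits
   (`PR/XI`).
The file `QC/Dec.lean` states the decision: perfect matching on the first `k` vertices, `k ^ log₂ k ≤ n`, is in NC.
-/

set_option autoImplicit false

namespace Pool.Agent.Results.MP_0087d5_lc.SizeNtoLogN

open Pool.Agent PRS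

/-- **There are functions `M` and `U` of graphs, computed in NC, such that for all `k` and `n` with `(2 k) ^ log₂ (2 k) ≤ n` (`log₂` rounded down) and for every graph `G` with the vertices `0, …, n - 1` all of whose edges are among the first `k` vertices, `M n G` is a matching of `G`
and the number of odd components of `G - U n G` is the number of elements of `U n G` plus the number of vertices which are not covered by `M n G`** (so `M n G` is a maximum matching of `G`, and the equation certifies it). For `n = (2 k) ^ log₂ (2 k)` this is a uniform family of circuits of size
`k ^ O(log k)` and depth `(log k) ^ O(1)` for all graphs on `k` vertices. -/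
theorem result : ∃ (M : ∀ n : ℕ, SimpleGraph (Fin n) → SimpleGraph (Fin n)) (U : ∀ n : ℕ, SimpleGraph (Fin n) → Set (Fin n)),
    RelNC1 2 (fun n G x => (M n G).Adj (x 0) (x 1)) ∧ RelNC1 1 (fun n G x => x 0 ∈ U n G) ∧
    ∀ (n k : ℕ) (G : SimpleGraph (Fin n)), (2 * k) ^ Nat.log 2 (2 * k) ≤ n → (∀ u v, G.Adj u v → (u : ℕ) < k) →
      M n G ≤ G ∧ (∀ u v w, (M n G).Adj u v → (M n G).Adj u w → v = w) ∧
      ((⊤ : G.Subgraph).deleteVerts (U n G)).coe.oddComponents.ncard = (U n G).ncard + {v | ∀ w, ¬ (M n G).Adj v w}.ncard := by
  obtain ⟨-, M, U, h1, h2, h3⟩ := QIC.full QIC.iso_stmt
  refine ⟨M, U, h1, h2, fun n k G hk hG => ⟨fun u v h => ((h3 n G).1 h).1, (h3 n G).2.1, ?_⟩⟩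
  have h4 := (h3 n G).2.2
  have hc : QIC.cut (QIC.kk n / 2) G = G := by
    rcases Nat.eq_zero_or_pos k with h0 | h0
    · ext u v
      exact ⟨fun h => h.1, fun h => absurd (hG u v h) (by omega)⟩
    · have h5 : 2 * k ≤ (2 * k) ^ Nat.log 2 (2 * k) := Nat.le_self_pow (by
        have := Nat.log_pos (b := 2) (n := 2 * k) (by omega) (by omega)
        omega) _
      have h6 : 2 * k ≤ QIC.kk n := Nat.le_findGreatest (h5.trans hk) hk
      ext u v
      refine ⟨fun h => h.1, fun h => ⟨h, ?_, ?_⟩⟩
      · have := hG u v h
        omega
      · have := hG v u h.symm
        omega
  rw [hc] at h4
  exact h4

end Pool.Agent.Results.MP_0087d5_lc.SizeNtoLogN
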