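import Pool.Agent.Lib.MP_0087d5_lc.SUB.Main

/-!
# Maximum matchings of all graphs by circuits of polynomial size and sublinear depth

Input: a graph `G` on {0,…,n-1}, bipartite or not. The circuits are uniform, of polynomial size, of fan-in two and of depth O(n^(8/9) (log n)^k). They decide whether `G` has a perfect matching and output a maximum matching of `G`.

Outline of the proof (all steps are in `Pool/Agent/Lib/MP_0087d5_lc/SUB`; `m` is the mate map of the current matching, `lam` is half the length of the shortest augmenting paths, `T` = n^(1/3)).
1. The levels `lv` (alternating distances from the exposed vertices) are computed in NC (the files `AUG`, see the hand-in AugmentMatching). The components of the threshold graph for `lam + 2` are the classes; each contains at most one alive vertex, its node.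
   A shortest augmenting path contains two disjoint chains of nodes, joined by a bridge, and conversely two disjoint chains with a bridge give a shortest augmenting path inside the classes of their members (`VStar`, `Chain`).
2. A round: from all exposed vertices structures of visited nodes are grown by parallel depth first searches with T + 1 steps, using maximal matchings between heads and unvisited nodes (`Grow`, `MXM`); two structures which contain together a shortest augmenting path are adjacent;
   for the pairs of a maximal matching of the structures the augmentations are made in parallel in disjoint zones (`Zone`, `Round`). All but O(n lam / T + f T) disjoint shortest augmenting paths are destroyed if f are found (`exit_pair`, `blocking`). Then T + 1 single augmentations (`SAugSpec`).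
3. A potential argument with the measure of Hopcroft and Karp (`Dec`, `HK`, `Pot`) shows that O(n^(5/9)) rounds suffice; the depth is n^(5/9) n^(3/9) up to logarithms.
4. Loops of open circuits, programs, circuits: `LComp`, `Loop`, `LPost`, `KProg`, `LSteps`, `Main`.
-/

namespace Pool.Agent.Results.MP_0087d5_lc.SublinearDepth

open Pool.Agent.SUB Pool.Agent.AUG

/-- **Perfect and maximum matchings of all graphs in sublinear depth.** Uniform families of Boolean circuits of polynomial size, fan-in two and depth O(n^(8/9) (log n)^k) decide whether a graph has a perfect matching, and compute a maximum matching of every graph. -/
theorem result :
    RelSub 0 (fun n (G : SimpleGraph (Fin n)) _ => ∃ M : G.Subgraph, M.IsPerfectMatching) ∧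
    ∃ F : ∀ n : ℕ, SimpleGraph (Fin n) → SimpleGraph (Fin n),
      RelSub 2 (fun n G x => (F n G).Adj (x 0) (x 1)) ∧ ∀ (n : ℕ) (G : SimpleGraph (Fin n)), IsMaxMat G (F n G) :=
  ⟨pm_sub, fmax, max_sub, fmax_max⟩

end Pool.Agent.Results.MP_0087d5_lc.SublinearDepth
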